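import Pool.Agent.H18.XZ.TC
import Pool.Agent.H17.XW.TJ

/-!
# Exponentially large protocols beside the exponential hierarchy in EQP: row FIS (all requirements at
once, by compactness)
-/

set_option autoImplicit false

namespace Pool.Agent.H21.XZ.FIS

open Finset Pool.Agent.H6.NB Pool.Agent.H70.OQ Pool.Agent.H70.EH Pool.Agent.H70.EI
open Pool.Agent.H78.XQ Pool.Agent.H66.IQ Pool.Agent.H66.AV
open Pool.Agent.H18.XX (Exa lx ax GoodZ Cz wz wy RhZ T_GDZ T_EXZ)
open Pool.Agent.H66.IP (ins sp dm scl)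
open Pool.Agent.H17.XW (Una)

/-- the kinds of the requirements -/
private abbrev Fiw : Type := (ℕ × List Bool) ⊕ ((ℕ × ℕ) ⊕ (ℕ × List Bool))

/-- the requirement with the number `i` -/
private def fiwD (i : ℕ) : Option Fiw := Encodable.decode i

private theorem fiwD_encode (z : Fiw) : fiwD (Encodable.encode z) = some z := Encodable.encodek z

/-- the condition which belongs to a requirement -/
private def fiwR (V : ℕ → Exa)
    (G : ℕ → (k : ℕ) × (List Bool → List Bool → Prot k)) (N : ℕ → ℕ)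
    (O : List Bool → Bool) : Fiw → Prop
  | Sum.inl p => GoodZ V p O
  | Sum.inr (Sum.inl jn) => N jn.1 ≤ jn.2 → ∀ a : List Bool, 200 * a.length ≤ jn.2 →
    (rights ((G jn.1).2 a) O jn.2 : ℝ) ≤
      (1 / 2 + (1 / 2) ^ (jn.2 / 64)) * 2 ^ jn.2
  | Sum.inr (Sum.inr kx) => Una O (kx.1 + 1) kx.2.length (false :: hdr kx.1 kx.2)

/-- the conditions -/
private def fiwC (V : ℕ → Exa)
    (G : ℕ → (k : ℕ) × (List Bool → List Bool → Prot k)) (N : ℕ → ℕ)
    (i : ℕ) (O : List Bool → Bool) : Prop := ∀ r, fiwD i = some r → fiwR V G N O r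

/-- the condition depends on finitely many strings -/
private theorem fiw_loc (hGDZ : T_GDZ) (hRLO : Pool.Agent.H66.AV.T_RLO)
    (hUNL : Pool.Agent.H17.XW.T_UNL)
    (V : ℕ → Exa) (G : ℕ → (k : ℕ) × (List Bool → List Bool → Prot k))
    (N : ℕ → ℕ) (r : Fiw) : ∃ L, ∀ O O' : List Bool → Bool, (∀ w, w.length ≤ L → O w = O' w) →
      fiwR V G N O r → fiwR V G N O' r := by
  rcases r with p | ⟨j, n⟩ | ⟨k, x⟩
  · exact hGDZ V p
  · obtain ⟨L, hL⟩ : ∃ L, ∀ a : List Bool, 200 * a.length ≤ n →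
        ∀ O O' : List Bool → Bool, (∀ w, w.length ≤ L → O w = O' w) →
          rights ((G j).2 a) O n = rights ((G j).2 a) O' n := by
      choose f hf using fun a => hRLO (G j).1 ((G j).2 a) n
      have hF : {a : List Bool | a.length ≤ n}.Finite :=
        List.finite_length_le Bool (n)
      obtain ⟨L, hL⟩ : ∃ L, ∀ a ∈ hF.toFinset, f a ≤ L :=
        ⟨hF.toFinset.sup f, fun a ha => Finset.le_sup ha⟩
      refine ⟨L, fun a ha O O' hO => hf a O O' fun w hw => hO w (hw.trans (hL a ?_))⟩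
      rw [Set.Finite.mem_toFinset]
      show a.length ≤ n
      omega
    refine ⟨L, fun O O' hO hC => ?_⟩
    intro hn a ha
    have h1 := hC hn a ha
    have h2 := hL a ha O O' hO
    show (rights ((G j).2 a) O' n : ℝ) ≤ (1 / 2 + (1 / 2) ^ (n / 64)) * 2 ^ n
    rw [← h2]
    exact h1
  · obtain ⟨L, hL⟩ := hUNL (k + 1) x.length (false :: hdr k x)
    exact ⟨L, fun O O' hO hC => hL O O' hO hC⟩

/-- a bound for the parameters of the requirements -/
private theorem fiw_bd (V : ℕ → Exa) (M : ℕ) : ∃ M' : ℕ, ∀ i < M,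
    (∀ p, fiwD i = some (Sum.inl p) → (sp (lx V) p).length ≤ M') ∧
    (∀ j n, fiwD i = some (Sum.inr (Sum.inl (j, n))) → j < M' ∧ n < M') ∧
    ∀ k x, fiwD i = some (Sum.inr (Sum.inr (k, x))) → k < M' ∧ x.length < M' := by
  induction M with
  | zero => exact ⟨0, fun i hi => absurd hi (Nat.not_lt_zero i)⟩
  | succ m ih =>
    obtain ⟨M₁, h₁⟩ := ih
    obtain ⟨M₂, h₂⟩ : ∃ M₂ : ℕ, (∀ p, fiwD m = some (Sum.inl p) → (sp (lx V) p).length ≤ M₂) ∧
        (∀ j n, fiwD m = some (Sum.inr (Sum.inl (j, n))) → j < M₂ ∧ n < M₂) ∧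
        ∀ k x, fiwD m = some (Sum.inr (Sum.inr (k, x))) → k < M₂ ∧ x.length < M₂ := by
      rcases h : fiwD m with _ | (p | ⟨j, n⟩ | ⟨k, x⟩)
      · exact ⟨0, fun p hp => absurd hp (by simp), fun j n hj => absurd hj (by simp),
          fun k x hk => absurd hk (by simp)⟩
      · refine ⟨(sp (lx V) p).length, fun p' hp => ?_, fun j n hj => absurd hj (by simp),
          fun k x hk => absurd hk (by simp)⟩
        have h1 : p = p' := by simpa using hp
        rw [h1]
      · refine ⟨max j n + 1, fun p hp => absurd hp (by simp), fun j' n' hj => ?_,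
          fun k x hk => absurd hk (by simp)⟩
        have h1 : j = j' ∧ n = n' := by simpa using hj
        obtain ⟨rfl, rfl⟩ := h1
        constructor <;> omega
      · refine ⟨max k x.length + 1, fun p hp => absurd hp (by simp),
          fun j n hj => absurd hj (by simp), fun k' x' hk => ?_⟩
        have h1 : k = k' ∧ x = x' := by simpa using hk
        obtain ⟨rfl, rfl⟩ := h1
        constructor <;> omega
    refine ⟨max M₁ M₂, fun i hi => ?_⟩
    rcases Nat.lt_succ_iff_lt_or_eq.1 hi with hlt | rfl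
    · refine ⟨fun p hp => ((h₁ i hlt).1 p hp).trans (le_max_left _ _), fun j n hj => ?_,
        fun k x hk => ?_⟩
      · have := (h₁ i hlt).2.1 j n hj
        omega
      · have := (h₁ i hlt).2.2 k x hk
        omega
    · refine ⟨fun p hp => (h₂.1 p hp).trans (le_max_right _ _), fun j n hj => ?_,
        fun k x hk => ?_⟩
      · have := h₂.2.1 j n hj
        omega
      · have := h₂.2.2 k x hk
        omega

theorem pf_FIS (hFMS : Pool.Agent.H18.XZ.T_FMS) (hCPT : Pool.Agent.H66.AV.T_CPT) (hGDZ : T_GDZ)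
    (hRLO : Pool.Agent.H66.AV.T_RLO) (hUNL : Pool.Agent.H17.XW.T_UNL) (hEXZ : T_EXZ) :
    Pool.Agent.H18.XZ.T_FIS := by
  intro V G hG
  obtain ⟨N, hN⟩ := hFMS V G hG
  have hloc : ∀ i, ∃ L, ∀ O O' : List Bool → Bool, (∀ w, w.length ≤ L → O w = O' w) →
      fiwC V G N i O → fiwC V G N i O' := by
    intro i
    rcases h : fiwD i with _ | r
    · refine ⟨0, fun O O' _ _ r hr => ?_⟩
      rw [h] at hr
      exact absurd hr (by simp)
    · obtain ⟨L, hL⟩ := fiw_loc hGDZ hRLO hUNL V G N r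
      refine ⟨L, fun O O' hO hC r' hr => ?_⟩
      have hr' := hr
      rw [h] at hr'
      have h1 : r = r' := by simpa using hr'
      rw [← h1]
      exact hL O O' hO (hC r h)
  have hfin : ∀ M, ∃ O, ∀ i < M, fiwC V G N i O := by
    intro M
    obtain ⟨M', hM'⟩ := fiw_bd V M
    obtain ⟨O, hO1, hO2, hO3⟩ := hN M'
    refine ⟨O, fun i hi r hr => ?_⟩
    rcases r with p | ⟨j, n⟩ | ⟨k, x⟩
    · exact hO1 p ((hM' i hi).1 p hr)
    · intro hn a ha
      obtain ⟨h3, h4⟩ := (hM' i hi).2.1 j n hr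
      exact hO3 j h3 n h4 hn a ha
    · obtain ⟨h3, h4⟩ := (hM' i hi).2.2 k x hr
      have h5 := hO2 k x.length h3 h4 (fun i => x.get i)
      rw [List.ofFn_get] at h5
      exact h5
  obtain ⟨O, hO⟩ := hCPT (fiwC V G N) hloc hfin
  refine ⟨O, ?_, ?_, ?_⟩
  · intro i x
    exact hEXZ V i x O (hO (Encodable.encode (Sum.inl (i, x) : Fiw)) _ (fiwD_encode _))
  · intro k x
    exact hO (Encodable.encode (Sum.inr (Sum.inr (k, x)) : Fiw)) _ (fiwD_encode _)
  · intro j
    refine ⟨N j, fun n hn => ?_⟩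
    exact hO (Encodable.encode (Sum.inr (Sum.inl (j, n)) : Fiw)) _ (fiwD_encode _) hn

end Pool.Agent.H21.XZ.FIS
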