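import Pool.Agent.H18.XZ.TB

/-!
MP_0f8dca_lc, board exz_modules, row NUB: numbers.
-/

set_option autoImplicit false

namespace Pool.Agent.H21.XZ.NUB

open Finset Pool.Agent.H70.OQ Pool.Agent.H18.XZ

theorem expo (w M G : ℕ) (hw : 0 < w) (h : 64 * w * M ≤ G) :
    (1 - 1 / (64 * (w : ℝ))) ^ G ≤ (1 / 2) ^ M := by
  have hwR : (0 : ℝ) < w := by exact_mod_cast hw
  have hw1 : (1 : ℝ) ≤ w := by exact_mod_cast hw
  have hq0 : (0 : ℝ) ≤ 1 - 1 / (64 * (w : ℝ)) := by
    have : 1 / (64 * (w : ℝ)) ≤ 1 := by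
      rw [div_le_one (by positivity)]
      linarith
    linarith
  have h1 : 1 - 1 / (64 * (w : ℝ)) ≤ Real.exp (-(1 / (64 * (w : ℝ)))) :=
    Real.one_sub_le_exp_neg _
  have h2 : (1 - 1 / (64 * (w : ℝ))) ^ G ≤ Real.exp (-(1 / (64 * (w : ℝ)))) ^ G :=
    pow_le_pow_left₀ hq0 h1 _
  have h3 : Real.exp (-(1 / (64 * (w : ℝ)))) ^ G ≤ Real.exp (-(M : ℝ)) := by
    rw [← Real.exp_nat_mul]
    apply Real.exp_le_exp.mpr
    have h4 : (64 * (w : ℝ) * M) ≤ G := by exact_mod_cast h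
    have h5 : (M : ℝ) ≤ G * (1 / (64 * (w : ℝ))) := by
      rw [mul_one_div, le_div_iff₀ (by positivity)]
      linarith
    linarith
  have h6 : Real.exp (-(M : ℝ)) ≤ (1 / 2) ^ M := by
    have h7 : Real.exp (-(M : ℝ)) = (Real.exp (-1)) ^ M := by
      rw [← Real.exp_nat_mul]
      congr 1
      ring
    rw [h7]
    apply pow_le_pow_left₀ (Real.exp_pos _).le
    rw [Real.exp_neg, one_div]
    apply inv_anti₀ (by norm_num)
    have := Real.add_one_le_exp (1 : ℝ)
    linarith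
  exact h2.trans (h3.trans h6)

theorem lin (t : ℕ) (ht : 10 ≤ t) : 40 * t + 46 ≤ 2 ^ t := by
  induction t, ht using Nat.le_induction with
  | base => norm_num
  | succ t ht ih =>
    rw [pow_succ]
    omega

/-- `2 ^ x * (1/2) ^ y ≤ (1/2) ^ z` -/
theorem two_half (x y z : ℕ) (h : x + z ≤ y) : (2 : ℝ) ^ x * (1 / 2) ^ y ≤ (1 / 2) ^ z := by
  have h1 : (1 / 2 : ℝ) ^ y ≤ (1 / 2) ^ (x + z) :=
    pow_le_pow_of_le_one (by norm_num) (by norm_num) h
  calc (2 : ℝ) ^ x * (1 / 2) ^ y ≤ 2 ^ x * (1 / 2) ^ (x + z) := by gcongr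
    _ = (1 / 2) ^ z := by
        rw [pow_add, ← mul_assoc, ← mul_pow]
        norm_num

theorem pf_NUB (hCRD : T_CRD) : T_NUB := by
  intro k
  obtain ⟨C, hC⟩ : ∃ C : ℕ, C = 1024 * ((k + 3) * (4 + k + 2 ^ (k + 1))) := ⟨_, rfl⟩
  refine ⟨72 * C + 10000, ?_⟩
  intro n hn m w a₁ a₂ q hm hw hq ha₁ ha₂
  have ha : a₁ + a₂ = 5 * n / 8 := by omega
  obtain ⟨D, hD⟩ : ∃ D : ℕ, D = 2 ^ (n / 20) := ⟨_, rfl⟩
  have hD1 : 2 * n + 6 ≤ D := by
    have h1 := lin (n / 20) (by omega)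
    rw [← hD] at h1
    omega
  have hDm : D ≤ m := by
    rw [hD, hm]
    exact Nat.pow_le_pow_right (by norm_num) (by omega)
  have hm1 : 1 ≤ m := by omega
  have hC2 : C < 2 ^ C := Nat.lt_two_pow_self
  have hC0 : 1024 * (k + 3) ≤ C := by
    rw [hC]
    have h1 : 1 ≤ 4 + k + 2 ^ (k + 1) := le_add_right (le_add_right (by norm_num))
    have h2 : (k + 3) * 1 ≤ (k + 3) * (4 + k + 2 ^ (k + 1)) := Nat.mul_le_mul_left _ h1
    omega
  have hw2 : w ≤ 16 * ((k + 3) * m) := by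
    have h1 : (k + 3) * (m + 1) ≤ (k + 3) * (2 * m) := Nat.mul_le_mul_left _ (by omega)
    have h2 : (k + 3) * (2 * m) = 2 * ((k + 3) * m) := by ring
    omega
  have hw0 : 0 < w := by
    rw [hw]
    positivity
  have hCm : ∀ e, C + 2 * (n / 6) ≤ e → C * m ^ 2 ≤ 2 ^ e := by
    intro e he
    calc C * m ^ 2 ≤ 2 ^ C * (2 ^ (n / 6)) ^ 2 := by
          rw [← hm]
          exact Nat.mul_le_mul_right _ hC2.le
      _ = 2 ^ (C + 2 * (n / 6)) := by
          rw [← pow_mul, ← pow_add]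
          congr 1
          ring
      _ ≤ 2 ^ e := Nat.pow_le_pow_right (by norm_num) he
  have hMW : ∀ M, M ≤ (4 + k + 2 ^ (k + 1)) * m → 64 * w * M ≤ C * m ^ 2 := by
    intro M hM
    calc 64 * w * M ≤ 64 * (16 * ((k + 3) * m)) * ((4 + k + 2 ^ (k + 1)) * m) :=
          Nat.mul_le_mul (Nat.mul_le_mul_left _ hw2) hM
      _ = C * m ^ 2 := by
          rw [hC]
          ring
  have hmw : 16 * (m * w) ≤ C * m ^ 2 := by
    calc 16 * (m * w) ≤ 16 * (m * (16 * ((k + 3) * m))) := by gcongr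
      _ ≤ 1024 * (k + 3) * m ^ 2 := by
          have : 16 * (m * (16 * ((k + 3) * m))) = 256 * (k + 3) * m ^ 2 := by ring
          rw [this]
          gcongr
          norm_num
      _ ≤ C * m ^ 2 := Nat.mul_le_mul_right _ hC0
  -- powers of one half
  have hhalf : ∀ (x e f : ℕ), x * 2 ^ e ≤ 2 ^ f → (x : ℝ) ≤ (1 / 2) ^ e * ((2 ^ f : ℕ) : ℝ) := by
    intro x e f h
    have h1 : (x : ℝ) * 2 ^ e ≤ 2 ^ f := by exact_mod_cast h
    push_cast
    rw [one_div_pow, one_div, inv_mul_eq_div, le_div_iff₀ (by positivity)]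
    exact h1
  refine ⟨by omega, ?_, ?_, ?_⟩
  · have h1 : 16 * (m * w) * 2 ^ (n / 36) ≤ 2 ^ (n - n / 2) := by
      calc 16 * (m * w) * 2 ^ (n / 36) ≤ 2 ^ (C + 2 * (n / 6)) * 2 ^ (n / 36) :=
            Nat.mul_le_mul_right _ (hmw.trans (hCm _ le_rfl))
        _ = 2 ^ (C + 2 * (n / 6) + n / 36) := (pow_add _ _ _).symm
        _ ≤ 2 ^ (n - n / 2) := Nat.pow_le_pow_right (by norm_num) (by omega)
    have h2 := hhalf _ _ _ h1
    push_cast at h2 ⊢
    exact h2
  · have h1 : 16 * 2 ^ a₁ * (m * w) * 2 ^ (2 * (n / 36)) ≤ 2 ^ a₂ := by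
      calc 16 * 2 ^ a₁ * (m * w) * 2 ^ (2 * (n / 36)) =
            16 * (m * w) * (2 ^ a₁ * 2 ^ (2 * (n / 36))) := by ring
        _ ≤ 2 ^ (C + 2 * (n / 6)) * (2 ^ a₁ * 2 ^ (2 * (n / 36))) :=
            Nat.mul_le_mul_right _ (hmw.trans (hCm _ le_rfl))
        _ = 2 ^ (C + 2 * (n / 6) + (a₁ + 2 * (n / 36))) := by
            rw [← pow_add 2 a₁, ← pow_add]
        _ ≤ 2 ^ a₂ := Nat.pow_le_pow_right (by norm_num) (by omega)
    have h2 := hhalf _ _ _ h1
    have h3 : ((1 / 2 : ℝ) ^ (n / 36)) ^ 2 = (1 / 2) ^ (2 * (n / 36)) := by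
      rw [← pow_mul, mul_comm]
    rw [h3]
    push_cast at h2 ⊢
    exact h2
  · -- the errors
    obtain ⟨E, hE⟩ : ∃ E : ℕ, E = 2 * n + 2 * m + D + 2 := ⟨_, rfl⟩
    have hE4 : E + 2 ≤ 4 * m := by omega
    have hqw : q = 1 / (64 * (w : ℝ)) := hq
    have hwR : (0 : ℝ) < w := by exact_mod_cast hw0
    have hwm : w = 8 * (k * (m + 1)) + 24 * (m + 1) := by
      rw [hw]
      ring
    have herr : errT ((Fin (2 ^ a₁) × Fin (2 ^ a₂)) × (Fin n → Bool)) (Ys n) (2 ^ (m + 1)) w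
        (2 ^ (n - (a₁ + a₂))) q k ≤ 3 * (1 / 2) ^ (E + 2) := by
      unfold errT
      rw [Finset.sum_add_distrib]
      have p1 : 2 / q * (5 / 2 ^ (w + 1)) ≤ (1 / 2) ^ (E + 2) := by
        have e3 : 2 / q * (5 / 2 ^ (w + 1)) = 320 * w * (1 / 2) ^ w := by
          rw [hqw, pow_succ, one_div_pow]
          field_simp
          norm_num
        rw [e3]
        have e1 : 320 * w ≤ 2 ^ (9 + (C + n / 6)) := by
          rw [pow_add, pow_add]
          refine Nat.mul_le_mul (by norm_num) ?_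
          rw [← hm]
          calc w ≤ 16 * ((k + 3) * m) := hw2
            _ = 16 * (k + 3) * m := by ring
            _ ≤ 2 ^ C * m := Nat.mul_le_mul_right _ (by omega)
        have e2 : (320 * (w : ℝ)) ≤ 2 ^ (9 + (C + n / 6)) := by exact_mod_cast e1
        calc 320 * (w : ℝ) * (1 / 2) ^ w ≤ 2 ^ (9 + (C + n / 6)) * (1 / 2) ^ w := by gcongr
          _ ≤ (1 / 2) ^ (E + 2) := two_half _ _ _ (by omega)
      have p2 : ∑ i ∈ range k, ((((2 ^ (m + 1) : ℕ) : ℝ) + 1) ^ (i + 1) * (5 / 2 ^ (w + 1))) ≤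
          (1 / 2) ^ (E + 2) := by
        have b1 : ∀ i ∈ range k, ((((2 ^ (m + 1) : ℕ) : ℝ) + 1) ^ (i + 1) * (5 / 2 ^ (w + 1))) ≤
            2 ^ ((m + 2) * k) * (2 ^ 3 * (1 / 2) ^ (w + 1)) := by
          intro i hi
          have hid : i < k := mem_range.mp hi
          have c1 : (((2 ^ (m + 1) : ℕ) : ℝ) + 1) ≤ 2 ^ (m + 2) := by
            push_cast
            have : (1 : ℝ) ≤ 2 ^ (m + 1) := one_le_pow₀ (by norm_num)
            rw [pow_succ 2 (m + 1)]
            linarith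
          refine mul_le_mul ?_ ?_ (by positivity) (by positivity)
          · calc (((2 ^ (m + 1) : ℕ) : ℝ) + 1) ^ (i + 1) ≤ (2 ^ (m + 2)) ^ (i + 1) :=
                pow_le_pow_left₀ (by positivity) c1 _
              _ = 2 ^ ((m + 2) * (i + 1)) := by rw [pow_mul]
              _ ≤ 2 ^ ((m + 2) * k) := by
                  apply pow_le_pow_right₀ (by norm_num)
                  exact Nat.mul_le_mul_left _ hid
          · rw [one_div_pow, mul_one_div]
            gcongr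
            norm_num
        refine (Finset.sum_le_sum b1).trans ?_
        rw [Finset.sum_const, card_range, nsmul_eq_mul]
        have hk2 : (k : ℝ) ≤ 2 ^ k := by exact_mod_cast (Nat.lt_two_pow_self (n := k)).le
        calc (k : ℝ) * (2 ^ ((m + 2) * k) * (2 ^ 3 * (1 / 2) ^ (w + 1))) ≤
            2 ^ k * (2 ^ ((m + 2) * k) * (2 ^ 3 * (1 / 2) ^ (w + 1))) := by gcongr
          _ = 2 ^ (k + (m + 2) * k + 3) * (1 / 2) ^ (w + 1) := by
              rw [pow_add, pow_add]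
              ring
          _ ≤ (1 / 2) ^ (E + 2) := by
              refine two_half _ _ _ ?_
              have e1 : (m + 2) * k = k * (m + 1) + k := by ring
              have e2 : k ≤ k * (m + 1) := Nat.le_mul_of_pos_right _ (by omega)
              rw [e1, hwm]
              omega
      have p3 : ∑ i ∈ range k, ((Fintype.card (Node ((Fin (2 ^ a₁) × Fin (2 ^ a₂)) ×
          (Fin n → Bool)) (Ys n) i) : ℝ) ^ 2 * (1 - q) ^ 2 ^ (n - (a₁ + a₂))) ≤
          (1 / 2) ^ (E + 2) := by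
        have hq1 : (1 - q) ^ 2 ^ (n - (a₁ + a₂)) ≤ (1 / 2) ^ (2 ^ (k + 1) * n + k + (E + 2)) := by
          rw [hqw]
          refine expo w _ _ hw0 ((hMW _ ?_).trans (hCm _ (by omega)))
          have e1 : 2 ^ (k + 1) * n ≤ 2 ^ (k + 1) * m := Nat.mul_le_mul_left _ (by omega)
          have e2 : k ≤ k * m := Nat.le_mul_of_pos_right _ (by omega)
          calc 2 ^ (k + 1) * n + k + (E + 2) ≤ 2 ^ (k + 1) * m + k * m + 4 * m := by omega
            _ = (4 + k + 2 ^ (k + 1)) * m := by ring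
        have hcard : ∀ i ∈ range k, (Fintype.card (Node ((Fin (2 ^ a₁) × Fin (2 ^ a₂)) ×
            (Fin n → Bool)) (Ys n) i) : ℝ) ^ 2 * (1 - q) ^ 2 ^ (n - (a₁ + a₂)) ≤
            2 ^ (2 ^ (k + 1) * n) * (1 / 2) ^ (2 ^ (k + 1) * n + k + (E + 2)) := by
          intro i hi
          have hid : i < k := mem_range.mp hi
          have hc0 := hCRD (Fin (2 ^ a₁) × Fin (2 ^ a₂)) n (a₁ + a₂) (by omega) (by
            rw [Fintype.card_prod, Fintype.card_fin, Fintype.card_fin, pow_add]) i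
          have hY : Fintype.card (Ys n i) = 2 ^ (2 ^ (i + 1) * n) := by
            simp [Ys]
          have hc1 : Fintype.card (Node ((Fin (2 ^ a₁) × Fin (2 ^ a₂)) ×
              (Fin n → Bool)) (Ys n) i) ≤ Fintype.card (Ys n i) := by
            refine le_trans ?_ hc0
            exact Nat.le_mul_of_pos_left _ (by positivity)
          have hc2 : (Fintype.card (Node ((Fin (2 ^ a₁) × Fin (2 ^ a₂)) ×
              (Fin n → Bool)) (Ys n) i) : ℝ) ^ 2 ≤ 2 ^ (2 ^ (k + 1) * n) := by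
            have h1 : (Fintype.card (Node ((Fin (2 ^ a₁) × Fin (2 ^ a₂)) ×
                (Fin n → Bool)) (Ys n) i)) ^ 2 ≤ 2 ^ (2 ^ (k + 1) * n) := by
              refine (Nat.pow_le_pow_left hc1 2).trans ?_
              rw [hY, ← pow_mul]
              refine Nat.pow_le_pow_right (by norm_num) ?_
              have h3 : 2 ^ (i + 1) ≤ 2 ^ k := Nat.pow_le_pow_right (by norm_num) hid
              calc 2 ^ (i + 1) * n * 2 ≤ 2 ^ k * n * 2 :=
                    Nat.mul_le_mul_right _ (Nat.mul_le_mul_right _ h3)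
                _ = 2 ^ (k + 1) * n := by ring
            exact_mod_cast h1
          exact mul_le_mul hc2 hq1 (by
            rw [hqw]
            have : 1 / (64 * (w : ℝ)) ≤ 1 := by
              rw [div_le_one (by positivity)]
              have : (1 : ℝ) ≤ w := by exact_mod_cast hw0
              linarith
            exact pow_nonneg (by linarith) _) (by positivity)
        refine (Finset.sum_le_sum hcard).trans ?_
        rw [Finset.sum_const, card_range, nsmul_eq_mul]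
        have hk2 : (k : ℝ) ≤ 2 ^ k := by exact_mod_cast (Nat.lt_two_pow_self (n := k)).le
        calc (k : ℝ) * (2 ^ (2 ^ (k + 1) * n) * (1 / 2) ^ (2 ^ (k + 1) * n + k + (E + 2))) ≤
            2 ^ k * (2 ^ (2 ^ (k + 1) * n) * (1 / 2) ^ (2 ^ (k + 1) * n + k + (E + 2))) := by
              gcongr
          _ = 2 ^ (k + 2 ^ (k + 1) * n) * (1 / 2) ^ (2 ^ (k + 1) * n + k + (E + 2)) := by
              rw [pow_add 2 k]
              ring
          _ ≤ (1 / 2) ^ (E + 2) := two_half _ _ _ (le_of_eq (by ring))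
      linarith
    -- the three terms
    have hn2 : (2 : ℝ) ^ n * ((2 ^ a₁ * 2 ^ a₂ : ℕ) : ℝ) ≤ 2 ^ (2 * n) := by
      push_cast
      rw [← pow_add, ← pow_add]
      exact pow_le_pow_right₀ (by norm_num) (by omega)
    have tA : (2 : ℝ) ^ n * (((2 ^ a₁ * 2 ^ a₂ : ℕ) : ℝ) * 2 ^ (2 * m) *
        errT ((Fin (2 ^ a₁) × Fin (2 ^ a₂)) × (Fin n → Bool)) (Ys n) (2 ^ (m + 1)) w
          (2 ^ (n - (a₁ + a₂))) q k) ≤ 3 * (1 / 2) ^ (D + 4) := by
      calc (2 : ℝ) ^ n * (((2 ^ a₁ * 2 ^ a₂ : ℕ) : ℝ) * 2 ^ (2 * m) *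
            errT ((Fin (2 ^ a₁) × Fin (2 ^ a₂)) × (Fin n → Bool)) (Ys n) (2 ^ (m + 1)) w
              (2 ^ (n - (a₁ + a₂))) q k) =
          ((2 : ℝ) ^ n * ((2 ^ a₁ * 2 ^ a₂ : ℕ) : ℝ)) * 2 ^ (2 * m) *
            errT ((Fin (2 ^ a₁) × Fin (2 ^ a₂)) × (Fin n → Bool)) (Ys n) (2 ^ (m + 1)) w
              (2 ^ (n - (a₁ + a₂))) q k := by ring
        _ ≤ (2 ^ (2 * n) * 2 ^ (2 * m)) * (3 * (1 / 2) ^ (E + 2)) := by
            refine mul_le_mul (mul_le_mul_of_nonneg_right hn2 (by positivity)) herr ?_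
              (by positivity)
            unfold errT
            have h1q : 0 ≤ 1 - q := by
              rw [hqw]
              have : 1 / (64 * (w : ℝ)) ≤ 1 := by
                rw [div_le_one (by positivity)]
                have : (1 : ℝ) ≤ w := by exact_mod_cast hw0
                linarith
              linarith
            have h2q : 0 < q := by
              rw [hqw]
              positivity
            have : ∀ i ∈ range k, 0 ≤ ((((2 ^ (m + 1) : ℕ) : ℝ) + 1) ^ (i + 1) *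
                (5 / 2 ^ (w + 1)) + (Fintype.card (Node ((Fin (2 ^ a₁) × Fin (2 ^ a₂)) ×
                (Fin n → Bool)) (Ys n) i) : ℝ) ^ 2 * (1 - q) ^ 2 ^ (n - (a₁ + a₂))) := by
              intro i _
              positivity
            have h3 := Finset.sum_nonneg this
            positivity
        _ = 3 * (2 ^ (2 * n + 2 * m) * (1 / 2) ^ (E + 2)) := by
            rw [pow_add 2 (2 * n)]
            ring
        _ ≤ 3 * (1 / 2) ^ (D + 4) := by
            gcongr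
            exact two_half _ _ _ (by omega)
    have tB : (2 : ℝ) ^ n * (((2 ^ a₁ * 2 ^ a₂ : ℕ) : ℝ) * ((2 ^ (n - n / 2) : ℕ) : ℝ) *
        (1 - q) ^ 2 ^ (n / 2)) ≤ (1 / 2) ^ (D + 2) := by
      have hq1 : (1 - q) ^ 2 ^ (n / 2) ≤ (1 / 2) ^ (3 * n + (D + 2)) := by
        rw [hqw]
        refine expo w _ _ hw0 ((hMW _ ?_).trans (hCm _ (by omega)))
        calc 3 * n + (D + 2) ≤ 4 * m := by omega
          _ ≤ (4 + k + 2 ^ (k + 1)) * m :=
            Nat.mul_le_mul_right _ (le_add_right (le_add_right le_rfl))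
      have hn3 : ((2 ^ (n - n / 2) : ℕ) : ℝ) ≤ 2 ^ n := by
        push_cast
        exact pow_le_pow_right₀ (by norm_num) (by omega)
      have h1q : 0 ≤ 1 - q := by
        rw [hqw]
        have : 1 / (64 * (w : ℝ)) ≤ 1 := by
          rw [div_le_one (by positivity)]
          have : (1 : ℝ) ≤ w := by exact_mod_cast hw0
          linarith
        linarith
      calc (2 : ℝ) ^ n * (((2 ^ a₁ * 2 ^ a₂ : ℕ) : ℝ) * ((2 ^ (n - n / 2) : ℕ) : ℝ) *
            (1 - q) ^ 2 ^ (n / 2)) =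
          ((2 : ℝ) ^ n * ((2 ^ a₁ * 2 ^ a₂ : ℕ) : ℝ)) * ((2 ^ (n - n / 2) : ℕ) : ℝ) *
            (1 - q) ^ 2 ^ (n / 2) := by ring
        _ ≤ (2 ^ (2 * n) * 2 ^ n) * (1 / 2) ^ (3 * n + (D + 2)) :=
            mul_le_mul (mul_le_mul hn2 hn3 (by positivity) (by positivity)) hq1
              (pow_nonneg h1q _) (by positivity)
        _ = 2 ^ (2 * n + n) * (1 / 2) ^ (3 * n + (D + 2)) := by rw [pow_add 2 (2 * n)]
        _ ≤ (1 / 2) ^ (D + 2) := two_half _ _ _ (by omega)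
    have tC : (2 : ℝ) ^ n * (12 / (1 / 2) ^ (n / 36) *
        Real.exp (-(((1 / 2) ^ (n / 36)) ^ 2 * ((2 ^ a₁ : ℕ) : ℝ) / 8))) ≤ (1 / 2) ^ (D + 2) := by
      obtain ⟨e, he⟩ : ∃ e : ℕ, e = a₁ - 2 * (n / 36) - 3 := ⟨_, rfl⟩
      have he2 : a₁ = e + (2 * (n / 36) + 3) := by omega
      have he3 : n / 20 + 1 ≤ e := by omega
      have h1 : ((1 / 2 : ℝ) ^ (n / 36)) ^ 2 * ((2 ^ a₁ : ℕ) : ℝ) / 8 = ((2 ^ e : ℕ) : ℝ) := by
        rw [he2]
        push_cast
        rw [pow_add, pow_add, ← pow_mul, mul_comm (n / 36) 2]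
        have h2 : (1 / 2 : ℝ) ^ (2 * (n / 36)) * 2 ^ (2 * (n / 36)) = 1 := by
          rw [← mul_pow]
          norm_num
        linear_combination (2 : ℝ) ^ e * h2
      have h2 : Real.exp (-((2 ^ e : ℕ) : ℝ)) ≤ (1 / 2) ^ (2 ^ e) := by
        have h7 : Real.exp (-((2 ^ e : ℕ) : ℝ)) = (Real.exp (-1)) ^ (2 ^ e) := by
          rw [← Real.exp_nat_mul]
          congr 1
          ring
        rw [h7]
        apply pow_le_pow_left₀ (Real.exp_pos _).le
        rw [Real.exp_neg, one_div]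
        apply inv_anti₀ (by norm_num)
        have := Real.add_one_le_exp (1 : ℝ)
        linarith
      have h3 : 2 * D ≤ 2 ^ e := by
        rw [hD, ← pow_succ']
        exact Nat.pow_le_pow_right (by norm_num) he3
      have h4 : 12 / (1 / 2 : ℝ) ^ (n / 36) ≤ 2 ^ (4 + n / 36) := by
        rw [one_div_pow, div_div_eq_mul_div, div_one, pow_add]
        gcongr
        norm_num
      rw [h1]
      calc (2 : ℝ) ^ n * (12 / (1 / 2) ^ (n / 36) * Real.exp (-((2 ^ e : ℕ) : ℝ))) ≤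
          2 ^ n * (2 ^ (4 + n / 36) * (1 / 2) ^ (2 ^ e)) := by gcongr
        _ = 2 ^ (n + (4 + n / 36)) * (1 / 2) ^ (2 ^ e) := by
            rw [pow_add 2 n]
            ring
        _ ≤ (1 / 2) ^ (D + 2) := two_half _ _ _ (by omega)
    rw [← hD]
    have hfin : (1 / 2 : ℝ) ^ (D + 4) = 1 / 16 * (1 / 2) ^ D := by
      rw [pow_add]
      norm_num
      ring
    have hfin2 : (1 / 2 : ℝ) ^ (D + 2) = 1 / 4 * (1 / 2) ^ D := by
      rw [pow_add]
      norm_num
      ring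
    have hpos : (0 : ℝ) < (1 / 2) ^ D := by positivity
    rw [hfin] at tA
    rw [hfin2] at tB tC
    rw [mul_add, mul_add]
    linarith

end Pool.Agent.H21.XZ.NUB
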