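import Pool.Agent.H18.XZ.TA

/-!
MP_0f8dca_lc, board exz_modules, row WTS: the weights.
-/

set_option autoImplicit false

namespace Pool.Agent.H21.XZ

open Finset Pool.Agent.H70.OQ Pool.Agent.H18.XZ

theorem pf_WTS : T_WTS := by
  intro R P _ _ _ _ L hL
  refine ⟨?_, ?_, ?_, ?_⟩
  · -- total mass
    unfold wt
    have h1 : ∏ r : R, ∑ x : Bool × P, (if x.2 ∈ L r then 1 / (2 * ((L r).card : ℝ)) else 0) =
        ∑ ω : R → Bool × P, ∏ r, (if (ω r).2 ∈ L r then 1 / (2 * ((L r).card : ℝ)) else 0) := by
      rw [Finset.prod_univ_sum, Fintype.piFinset_univ]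
    rw [← h1]
    refine Finset.prod_eq_one fun r _ => ?_
    have hc : ((L r).card : ℝ) ≠ 0 := by
      have := Finset.card_pos.2 (hL r)
      positivity
    rw [Fintype.sum_prod_type]
    simp only [Finset.sum_ite_mem, Finset.univ_inter, Finset.sum_const, Finset.card_univ,
      Fintype.card_bool, nsmul_eq_mul]
    push_cast
    field_simp
  · intro ω
    unfold wt
    refine Finset.prod_nonneg fun r _ => ?_
    split_ifs
    · positivity
    · exact le_rfl
  · intro ω h r
    by_contra hr
    refine h ?_
    unfold wt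
    exact Finset.prod_eq_zero (Finset.mem_univ r) (if_neg hr)
  · intro F
    have hwt : ∀ ω : R → Bool × P, wt L ω = uw L (fun r => (ω r).2) / 2 ^ Fintype.card R := by
      intro ω
      unfold wt uw
      rw [div_eq_mul_inv, ← inv_pow, ← Finset.card_univ, ← Finset.prod_const,
        ← Finset.prod_mul_distrib]
      refine Finset.prod_congr rfl fun r _ => ?_
      split_ifs
      · rw [one_div, one_div, mul_inv]
        ring
      · rw [zero_mul]
    have h2 : ∑ ω : R → Bool × P, wt L ω * F (fun r => (ω r).1) (fun r => (ω r).2) =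
        ∑ p : (R → Bool) × (R → P), uw L p.2 / 2 ^ Fintype.card R * F p.1 p.2 := by
      refine Fintype.sum_equiv
        { toFun := fun ω => (fun r => (ω r).1, fun r => (ω r).2)
          invFun := fun p r => (p.1 r, p.2 r)
          left_inv := fun _ => rfl
          right_inv := fun _ => rfl } _ _ (fun ω => ?_)
      rw [hwt]
      rfl
    rw [h2, Fintype.sum_prod_type, Finset.sum_div]
    refine Finset.sum_congr rfl fun b _ => ?_
    rw [Finset.sum_div]
    refine Finset.sum_congr rfl fun u _ => ?_
    ring

end Pool.Agent.H21.XZ
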